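import Pool.Agent.Lib.MP_abd978_an.UN.Interfaces

/-!
# LIP: harmonic morphisms are locally Lipschitz (`p > n`, `dμ = dx`)
-/

set_option autoImplicit false

open MeasureTheory Metric Set Filter Topology ContDiff
open scoped Gradient RealInnerProductSpace NNReal ENNReal

namespace Pool.Agent.Lib.MP_abd978_an.UN.H72

open Pool.Agent.Lib.MP_abd978_an Pool.Agent.Lib.MP_abd978_an.UN

lemma al_pos {n : ℕ} {p : ℝ} (hn : 2 ≤ n) (hp : (n : ℝ) < p) : 0 < al n p := by
  have h2 : (2 : ℝ) ≤ n := by exact_mod_cast hn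
  exact div_pos (by linarith) (by linarith)

/-- the comparison argument -/
lemma comparison (hComp : CompStatement) (hPharm : PharmStatement) (hHalg : HalgStatement)
    {n : ℕ} {p : ℝ} {a : E n → E n → E n} {α β : ℝ} {b : E n → E n → E n} {α' β' : ℝ}
    (hD : Dat n p a α β b α' β') {Ω : Set (E n)} {f : E n → E n} (hf : Mor p a b Ω f)
    {x : E n} {R S k k' τ c₂ : ℝ} (hR : closedBall x R ⊆ Ω) (hR0 : 0 < R) (hk : 0 < k)
    (hk' : 0 < k') (hc₂ : 0 < c₂) {P Q : E n → ℝ}
    (hP : IsPot volume p a (f x) S (f x) k P) (hQ : IsPot volume p b x R x k' Q)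
    (hτ : ∀ z ∈ closedBall (f x) (8 * k) \ closedBall (f x) k, 1 - P z ≤ τ) (hτ0 : 0 ≤ τ)
    (hc : ∀ z ∈ ball x R \ ball x (R / 2), 1 ≤ c₂ * (1 - Q z))
    (hkk : ∀ z, dist z x ≤ 2 * k' → dist (f z) (f x) ≤ k)
    (hS : ∀ z ∈ closedBall x R, dist (f z) (f x) < S) :
    ∀ z ∈ ball x R, k' < dist z x → k < dist (f z) (f x) →
      (1 - P (f z)) - τ ≤ c₂ * (1 - Q z) := by
  obtain ⟨hn, hp, opa, opb⟩ := hD
  have hballR : ball x R ⊆ Ω := ball_subset_closedBall.trans hR
  -- the open set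
  set V : Set (E n) := ball (f x) S \ closedBall (f x) k with hV
  have hVo : IsOpen V := isOpen_ball.sdiff isClosed_closedBall
  set W : Set (E n) := ball x R \ closedBall x k' with hW
  have hWo : IsOpen W := isOpen_ball.sdiff isClosed_closedBall
  have hPh : Harm volume p a V P :=
    hPharm n p volume a α β (f x) S (f x) k P opa hP
  have hQh : Harm volume p b W Q :=
    hPharm n p volume b α' β' x R x k' Q opb hQ
  have hPf := hf.mor V P hVo hPh
  have hUo : IsOpen (Ω ∩ f ⁻¹' V) := hf.cont.isOpen_inter_preimage hf.isOpen hVo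
  have hu := (hHalg n p volume b α' β' (Ω ∩ f ⁻¹' V) (P ∘ f) opb hUo hPf).1 (1 - τ)
  have hv := (hHalg n p volume b α' β' W (fun z => 1 - Q z) opb hWo
    ((hHalg n p volume b α' β' W Q opb hWo hQh).1 1)).2 c₂ hc₂
  have hP01 : ∀ z, P z ∈ Icc (0 : ℝ) 1 := hP.2.2.1
  have hQ01 : ∀ z, Q z ∈ Icc (0 : ℝ) 1 := hQ.2.2.1
  have hcmp := hComp n p b α' β' (W ∩ (Ω ∩ f ⁻¹' V)) (fun z => (1 - τ) - (P ∘ f) z)
    (fun z => c₂ * (1 - Q z)) (by omega) opb (hWo.inter hUo) (hu.mono inter_subset_right)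
    (hv.mono inter_subset_left) (by
      intro ε hε
      refine ⟨(closedBall x (R / 2) ∩ f ⁻¹' {v | 8 * k ≤ dist v (f x)}) ∩
        {z | 2 * k' ≤ dist z x}, ?_, ?_, ?_⟩
      · refine IsCompact.of_isClosed_subset (isCompact_closedBall x (R / 2)) ?_ ?_
        · refine IsClosed.inter ?_ ?_
          · refine ContinuousOn.preimage_isClosed_of_isClosed (hf.cont.mono ?_)
              isClosed_closedBall ?_
            · exact (closedBall_subset_closedBall (by linarith)).trans hR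
            · exact isClosed_le continuous_const (continuous_id.dist continuous_const)
          · exact isClosed_le continuous_const (continuous_id.dist continuous_const)
        · exact fun z hz => hz.1.1
      · rintro z ⟨⟨hz1, hz2⟩, hz3⟩
        have hz1' := mem_closedBall.mp hz1
        have hz2' : 8 * k ≤ dist (f z) (f x) := hz2
        have hz3' : 2 * k' ≤ dist z x := hz3
        have hzR : z ∈ ball x R := mem_ball.mpr (by linarith)
        refine ⟨⟨hzR, ?_⟩, hballR hzR, mem_ball.mpr (hS z (ball_subset_closedBall hzR)), ?_⟩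
        · rw [mem_closedBall, not_le]; linarith
        · rw [mem_closedBall, not_le]; linarith
      · intro z hz hzK
        obtain ⟨⟨hz1, hz2⟩, hz3, hz4, hz5⟩ := hz
        rw [mem_ball] at hz1
        rw [mem_closedBall, not_le] at hz2
        simp only [Function.comp_apply]
        have hQz := (hQ01 z).2
        have hPz := (hP01 (f z)).1
        have hv0 : 0 ≤ c₂ * (1 - Q z) := mul_nonneg hc₂.le (by linarith)
        have h5 : k < dist (f z) (f x) := by
          rw [mem_closedBall, not_le] at hz5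
          exact hz5
        by_cases h1 : R / 2 ≤ dist z x
        · have := hc z ⟨mem_ball.mpr hz1, by rw [mem_ball]; linarith⟩
          linarith
        · by_cases h2 : dist (f z) (f x) < 8 * k
          · have := hτ (f z) ⟨mem_closedBall.mpr h2.le, hz5⟩
            linarith
          · exfalso
            push Not at h1 h2
            apply hzK
            refine ⟨⟨mem_closedBall.mpr h1.le, h2⟩, ?_⟩
            show 2 * k' ≤ dist z x
            by_contra h3
            push Not at h3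
            have := hkk z h3.le
            linarith)
  intro z hz h1 h2
  have h3 := hS z (ball_subset_closedBall hz)
  have := hcmp z ⟨⟨hz, by rw [mem_closedBall, not_le]; exact h1⟩, hballR hz,
    mem_ball.mpr h3, by rw [mem_closedBall, not_le]; exact h2⟩
  simp only [Function.comp_apply] at this
  linarith

/-- the pointwise estimate -/
lemma estimate (hComp : CompStatement) (hPotx : PotxStatement) (hPharm : PharmStatement)
    (hHalg : HalgStatement) {n : ℕ} {p : ℝ} {a : E n → E n → E n} {α β : ℝ}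
    {b : E n → E n → E n} {α' β' : ℝ} (hD : Dat n p a α β b α' β')
    {ca Ca cb Cb : ℝ} (hca : 0 < ca) (hCa : 0 < Ca) (hcb : 0 < cb) (hCb : 0 < Cb)
    (hPa : ∀ (y : E n) (S κ ρ : ℝ) (P : E n → ℝ), IsPot volume p a y S y κ P → 8 * κ ≤ ρ →
      ρ ≤ S / 2 → (∀ z ∈ closedBall y ρ \ closedBall y κ, 1 - P z ≤ Ca * (ρ / S) ^ al n p) ∧
      ∀ z ∈ ball y S \ ball y ρ, ca * (ρ / S) ^ al n p ≤ 1 - P z)
    (hPb : ∀ (y : E n) (S κ ρ : ℝ) (P : E n → ℝ), IsPot volume p b y S y κ P → 8 * κ ≤ ρ →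
      ρ ≤ S / 2 → (∀ z ∈ closedBall y ρ \ closedBall y κ, 1 - P z ≤ Cb * (ρ / S) ^ al n p) ∧
      ∀ z ∈ ball y S \ ball y ρ, cb * (ρ / S) ^ al n p ≤ 1 - P z)
    {Ω : Set (E n)} {f : E n → E n} (hf : Mor p a b Ω f) {x : E n} {R w : ℝ} (hR0 : 0 < R)
    (hR : closedBall x R ⊆ Ω) (hw0 : 0 < w) (hw : ∀ z ∈ closedBall x R, dist (f z) (f x) ≤ w)
    {z : E n} (hz : z ∈ ball x (R / 2)) (hzf : 0 < dist (f z) (f x)) :
    ca / 2 * (dist (f z) (f x) / (4 * w)) ^ al n p ≤
      (cb * (1 / 2) ^ al n p)⁻¹ * (Cb * (dist z x / R) ^ al n p) := by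
  have hal : 0 < al n p := al_pos hD.hn hD.hp
  obtain ⟨d, hd⟩ : ∃ d, d = dist (f z) (f x) := ⟨_, rfl⟩
  obtain ⟨D, hDD⟩ : ∃ D, D = dist z x := ⟨_, rfl⟩
  rw [← hd] at hzf ⊢
  rw [← hDD]
  have hzR : z ∈ ball x R := ball_subset_ball (by linarith) hz
  have hD2 : D < R / 2 := by rw [hDD]; exact hz
  have hD0 : 0 < D := by
    rw [hDD]
    by_contra hcon
    have : z = x := dist_le_zero.mp (not_lt.mp hcon)
    rw [this, dist_self] at hd
    linarith
  have hdw : d ≤ w := by rw [hd]; exact hw z (ball_subset_closedBall hzR)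
  -- the choice of `k`
  obtain ⟨m, hm0, hm1, hm⟩ : ∃ m : ℝ, 0 < m ∧ m ≤ 1 ∧ Ca * m ^ al n p ≤ ca / 2 := by
    refine ⟨min 1 ((ca / (2 * Ca)) ^ (1 / al n p)), ?_, min_le_left _ _, ?_⟩
    · exact lt_min one_pos (Real.rpow_pos_of_pos (by positivity) _)
    · have h1 : (min 1 ((ca / (2 * Ca)) ^ (1 / al n p))) ^ al n p ≤
          ((ca / (2 * Ca)) ^ (1 / al n p)) ^ al n p := by
        apply Real.rpow_le_rpow _ (min_le_right _ _) hal.le
        exact (lt_min one_pos (Real.rpow_pos_of_pos (by positivity) _)).le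
      rw [← Real.rpow_mul (by positivity), one_div_mul_cancel hal.ne', Real.rpow_one] at h1
      calc Ca * _ ≤ Ca * (ca / (2 * Ca)) := mul_le_mul_of_nonneg_left h1 hCa.le
        _ = ca / 2 := by field_simp
  obtain ⟨k, hk⟩ : ∃ k, k = d * m / 8 := ⟨_, rfl⟩
  have hk0 : 0 < k := by rw [hk]; positivity
  have h8k : 8 * k = d * m := by rw [hk]; ring
  have h8kd : 8 * k ≤ d := by rw [h8k]; exact mul_le_of_le_one_right hzf.le hm1
  -- the choice of `k'`
  have hxΩ : x ∈ Ω := hR (mem_closedBall_self hR0.le)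
  have hcont : ContinuousAt f x := hf.cont.continuousAt (hf.isOpen.mem_nhds hxΩ)
  obtain ⟨δ, hδ0, hδ⟩ := Metric.continuousAt_iff.mp hcont k hk0
  obtain ⟨k', hk'⟩ : ∃ k', k' = min (δ / 4) (D / 8) := ⟨_, rfl⟩
  have hk'0 : 0 < k' := by rw [hk']; exact lt_min (by positivity) (by positivity)
  have hk'δ : k' ≤ δ / 4 := by rw [hk']; exact min_le_left _ _
  have hk'D : 8 * k' ≤ D := by
    have : k' ≤ D / 8 := by rw [hk']; exact min_le_right _ _
    linarith
  -- the potentials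
  obtain ⟨P, hP⟩ := hPotx n p volume a α β (f x) (4 * w) (f x) k hD.opa hk0
    (closedBall_subset_ball (by linarith))
  obtain ⟨Q, hQ⟩ := hPotx n p volume b α' β' x R x k' hD.opb hk'0
    (closedBall_subset_ball (by linarith))
  have hc₂ : 0 < (cb * (1 / 2 : ℝ) ^ al n p)⁻¹ := by positivity
  have hτ := (hPa (f x) (4 * w) k (8 * k) P hP le_rfl (by linarith)).1
  have hQ2 := (hPb x R k' (R / 2) Q hQ (by linarith) le_rfl).2
  have hcmp := comparison hComp hPharm hHalg hD hf (τ := Ca * (8 * k / (4 * w)) ^ al n p)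
    (c₂ := (cb * (1 / 2 : ℝ) ^ al n p)⁻¹) hR hR0 hk0 hk'0 hc₂ hP hQ hτ (by positivity)
    (by
      intro z' hz'
      have h1 := hQ2 z' hz'
      have h2 : R / 2 / R = 1 / 2 := by field_simp
      rw [h2] at h1
      have h3 : 0 < cb * (1 / 2 : ℝ) ^ al n p := by positivity
      calc (1 : ℝ) = (cb * (1 / 2 : ℝ) ^ al n p)⁻¹ * (cb * (1 / 2 : ℝ) ^ al n p) :=
            (inv_mul_cancel₀ h3.ne').symm
        _ ≤ _ := mul_le_mul_of_nonneg_left h1 hc₂.le)
    (fun z' hz' => (hδ (by linarith)).le)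
    (fun z' hz' => lt_of_le_of_lt (hw z' hz') (by linarith))
    z hzR (by rw [← hDD]; linarith) (by rw [← hd]; linarith)
  have h1 := (hPa (f x) (4 * w) k d P hP h8kd (by linarith)).2 (f z)
    ⟨mem_ball.mpr (by rw [← hd]; linarith), by rw [mem_ball, ← hd]; exact lt_irrefl _⟩
  have h2 := (hPb x R k' D Q hQ hk'D (by linarith)).1 z
    ⟨mem_closedBall.mpr hDD.symm.le, by rw [mem_closedBall, ← hDD, not_le]; linarith⟩
  have h3 : Ca * (8 * k / (4 * w)) ^ al n p ≤ ca / 2 * (d / (4 * w)) ^ al n p := by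
    have e1 : 8 * k / (4 * w) = m * (d / (4 * w)) := by rw [h8k]; ring
    rw [e1, Real.mul_rpow hm0.le (by positivity), ← mul_assoc]
    exact mul_le_mul_of_nonneg_right hm (by positivity)
  have h4 := mul_le_mul_of_nonneg_left h2 hc₂.le
  linarith

/-- **LIP** -/
theorem lip (hPotb : PotbStatement) (hComp : CompStatement) (hPotx : PotxStatement)
    (hPharm : PharmStatement) (hHalg : HalgStatement) : LipStatement := by
  intro n p a α β b α' β' hD
  have hal : 0 < al n p := al_pos hD.hn hD.hp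
  obtain ⟨ca, Ca, hca, hCa, hPa⟩ := hPotb n p a α β hD.hn hD.hp hD.opa
  obtain ⟨cb, Cb, hcb, hCb, hPb⟩ := hPotb n p b α' β' hD.hn hD.hp hD.opb
  obtain ⟨C', hC'⟩ : ∃ C' : ℝ, C' = 2 / ca * ((cb * (1 / 2 : ℝ) ^ al n p)⁻¹ * Cb) := ⟨_, rfl⟩
  have hC'0 : 0 < C' := by rw [hC']; positivity
  refine ⟨4 * C' ^ (1 / al n p), by positivity, ?_⟩
  intro Ω f hf x R w hR0 hR hw z hz
  have hw0 : 0 ≤ w := by
    have := hw x (mem_closedBall_self hR0.le)
    rwa [dist_self] at this
  by_cases hzf : 0 < dist (f z) (f x)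
  swap
  · have : dist (f z) (f x) ≤ 0 := not_lt.mp hzf
    refine this.trans ?_
    have h1 : 0 ≤ C' ^ (1 / al n p) := by positivity
    have h2 : 0 ≤ dist z x := dist_nonneg
    positivity
  have hwpos : 0 < w := lt_of_lt_of_le hzf
    (hw z (ball_subset_closedBall (ball_subset_ball (by linarith) hz)))
  have hest := estimate hComp hPotx hPharm hHalg hD hca hCa hcb hCb hPa hPb hf hR0 hR hwpos hw
    hz hzf
  obtain ⟨d, hd⟩ : ∃ d, d = dist (f z) (f x) := ⟨_, rfl⟩
  obtain ⟨D, hDD⟩ : ∃ D, D = dist z x := ⟨_, rfl⟩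
  rw [← hd] at hest hzf ⊢
  rw [← hDD] at hest ⊢
  have hD0 : 0 ≤ D := by rw [hDD]; exact dist_nonneg
  have h1 : (d / (4 * w)) ^ al n p ≤ C' * (D / R) ^ al n p := by
    have h2 := mul_le_mul_of_nonneg_left hest (show 0 ≤ 2 / ca by positivity)
    have e1 : 2 / ca * (ca / 2 * (d / (4 * w)) ^ al n p) = (d / (4 * w)) ^ al n p := by
      field_simp
    rw [e1] at h2
    calc (d / (4 * w)) ^ al n p ≤ _ := h2
      _ = C' * (D / R) ^ al n p := by rw [hC']; ring
  have h2 : d / (4 * w) ≤ C' ^ (1 / al n p) * (D / R) := by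
    have h3 := Real.rpow_le_rpow (by positivity) h1 (show 0 ≤ 1 / al n p by positivity)
    rw [Real.mul_rpow hC'0.le (by positivity), ← Real.rpow_mul (by positivity),
      ← Real.rpow_mul (by positivity), mul_one_div_cancel hal.ne', Real.rpow_one,
      Real.rpow_one] at h3
    exact h3
  rw [div_le_iff₀ (by positivity)] at h2
  calc d ≤ C' ^ (1 / al n p) * (D / R) * (4 * w) := h2
    _ = 4 * C' ^ (1 / al n p) * (w / R) * D := by ring

/-- **LIPL** -/
theorem lipl (hLip : LipStatement) : LiplStatement := by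
  intro n p a α β b α' β' hD Ω f hf x₀ hx₀
  obtain ⟨C, hC0, hC⟩ := hLip n p a α β b α' β' hD
  obtain ⟨ρ, hρ0, hρ⟩ := Metric.isOpen_iff.mp hf.isOpen x₀ hx₀
  obtain ⟨R, hRdef⟩ : ∃ R, R = ρ / 4 := ⟨_, rfl⟩
  have hR0 : 0 < R := by rw [hRdef]; positivity
  have hsub : closedBall x₀ (2 * R) ⊆ Ω := (closedBall_subset_ball (by linarith)).trans hρ
  -- a bound on the closed ball
  obtain ⟨M, hM⟩ := (isCompact_closedBall x₀ (2 * R)).exists_bound_of_continuousOn
    (hf.cont.mono hsub)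
  have hM0 : 0 ≤ M := (norm_nonneg _).trans (hM x₀ (mem_closedBall_self (by linarith)))
  have hK0 : 0 ≤ C * (2 * M / R) := by positivity
  refine ⟨⟨C * (2 * M / R), hK0⟩, ball x₀ (R / 4), ball_mem_nhds _ (by positivity), ?_⟩
  refine LipschitzOnWith.of_dist_le_mul fun x₂ hx₂ x₁ hx₁ => ?_
  have hx₁' : dist x₁ x₀ < R / 4 := hx₁
  have hx₂' : dist x₂ x₀ < R / 4 := hx₂
  have hsub1 : closedBall x₁ R ⊆ closedBall x₀ (2 * R) :=
    closedBall_subset_closedBall' (by linarith)
  have h := hC Ω f hf x₁ R (2 * M) hR0 (hsub1.trans hsub) (fun z hz => ?_) x₂ ?_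
  · exact h
  · rw [dist_eq_norm]
    have h1 := hM z (hsub1 hz)
    have h2 := hM x₁ (hsub1 (mem_closedBall_self hR0.le))
    have h3 := norm_sub_le (f z) (f x₁)
    linarith
  · rw [mem_ball]
    have := dist_triangle_right x₂ x₁ x₀
    linarith

end Pool.Agent.Lib.MP_abd978_an.UN.H72
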